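import Pool.Agent.H47.SQ.Targets

/-!
The savings of backtracking search on random k-CNFs (MP_c62aed_lc), row DRQ: the probability that
the search finds an element of `C`.
-/

set_option autoImplicit false

namespace Pool.Agent.H67.SQR

open Finset Pool.Agent.H97.RK Pool.Agent.H41.SS Pool.Agent.H47.SR
open Pool.Agent.H47.PL (Agr Con dm T_IND)


private theorem con_insert' {n : ℕ} {L : Finset (Fin n × Bool)} (hL : Con L) {v : Fin n} {b : Bool}
    (hv : (v, !b) ∉ L) : Con (insert (v, b) L) := by
  intro u c hu hu'
  rw [Finset.mem_insert] at hu hu'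
  rcases hu with hu | hu
  · have h1 : u = v := congrArg Prod.fst hu
    have h2 : c = b := congrArg Prod.snd hu
    subst h1; subst h2
    rcases hu' with hu' | hu'
    · have h3 : (!c) = c := congrArg Prod.snd hu'
      cases c <;> simp at h3
    · exact hv hu'
  · rcases hu' with hu' | hu'
    · have h1 : u = v := congrArg Prod.fst hu'
      have h2 : (!c) = b := congrArg Prod.snd hu'
      subst h1; subst h2
      rw [Bool.not_not] at hv
      exact hv hu
    · exact hL u c hu hu'

private theorem dm_ins {n : ℕ} (L : Finset (Fin n × Bool)) (v : Fin n) (b : Bool) :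
    dm (insert (v, b) L) = insert v (dm L) := by
  unfold dm
  rw [Finset.image_insert]

/-- success gives an assignment in `C` -/
private theorem findQ_sat {n : ℕ} (C : Finset (Fin n → Bool)) (M : ℕ)
    (Ex Q : Finset (Fin n × Bool) → Prop)
    (hQ : ∀ L, Q L → 2 ^ n ≤ M * (nC C L * 2 ^ L.card))
    (ω : Finset (Fin n × Bool) → Bool) (T : Pool.Agent.H47.SQ.Tree n) : ∀ L, FindQ Ex Q ω T L →
    1 ≤ M ∧ ∃ τ ∈ C, Agr τ L := by
  classical
  induction T with
  | leaf =>
    intro L hF
    have h1 := hQ L hF
    have h2 : 0 < 2 ^ n := by positivity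
    have h3 : 0 < M * (nC C L * 2 ^ L.card) := lt_of_lt_of_le h2 h1
    have h4 : 0 < M := Nat.pos_of_mul_pos_right h3 |> fun _ => by
      rcases Nat.eq_zero_or_pos M with h | h
      · rw [h, Nat.zero_mul] at h3
        exact absurd h3 (lt_irrefl _)
      · exact h
    have h5 : 0 < nC C L := by
      rcases Nat.eq_zero_or_pos (nC C L) with h | h
      · rw [h, Nat.zero_mul, Nat.mul_zero] at h3
        exact absurd h3 (lt_irrefl _)
      · exact h
    unfold nC at h5
    obtain ⟨τ, hτ⟩ := Finset.card_pos.1 h5
    rw [Finset.mem_filter] at hτ
    exact ⟨h4, τ, hτ.1, hτ.2⟩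
  | node v f ih =>
    intro L hF
    rcases hF with ⟨b, _, hF⟩ | ⟨hn, b, _, hF⟩
    · exact ih b b L hF
    · obtain ⟨hM, τ, h1, h2⟩ := ih _ b _ hF
      exact ⟨hM, τ, h1, fun l hl => h2 l (Finset.mem_insert_of_mem hl)⟩

/-- the search depends on the later values only -/
private theorem findQ_congr {n : ℕ} (Ex Q : Finset (Fin n × Bool) → Prop)
    (ω ω' : Finset (Fin n × Bool) → Bool) (T : Pool.Agent.H47.SQ.Tree n) : ∀ L,
    (∀ L', L ⊆ L' → ω L' = ω' L') → FindQ Ex Q ω T L → FindQ Ex Q ω' T L := by
  induction T with
  | leaf =>
    intro L _ hF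
    exact hF
  | node v f ih =>
    intro L hL hF
    rcases hF with ⟨b, hb, hF⟩ | ⟨hn, b, hc, hF⟩
    · exact Or.inl ⟨b, hb, ih b b L hL hF⟩
    · have h1 := hL L (Finset.Subset.refl _)
      refine Or.inr ⟨hn, b, ?_, ?_⟩
      · rw [← h1]
        exact hc
      · rw [← h1]
        exact ih _ b _ (fun L' hL' => hL L' ((Finset.subset_insert _ _).trans hL')) hF

private theorem nC_split {n : ℕ} (C : Finset (Fin n → Bool)) (L : Finset (Fin n × Bool))
    (v : Fin n) : nC C L = nC C (insert (v, true) L) + nC C (insert (v, false) L) := by
  classical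
  unfold nC
  rw [← Finset.card_union_of_disjoint]
  · congr 1
    ext τ
    simp only [Finset.mem_union, Finset.mem_filter]
    constructor
    · rintro ⟨h1, h2⟩
      rcases hb : τ v with _ | _
      · right
        refine ⟨h1, fun l hl => ?_⟩
        rcases Finset.mem_insert.1 hl with rfl | hl
        · exact hb
        · exact h2 l hl
      · left
        refine ⟨h1, fun l hl => ?_⟩
        rcases Finset.mem_insert.1 hl with rfl | hl
        · exact hb
        · exact h2 l hl
    · rintro (⟨h1, h2⟩ | ⟨h1, h2⟩)
      · exact ⟨h1, fun l hl => h2 l (Finset.mem_insert_of_mem hl)⟩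
      · exact ⟨h1, fun l hl => h2 l (Finset.mem_insert_of_mem hl)⟩
  · rw [Finset.disjoint_left]
    intro τ h1 h2
    have h3 := (Finset.mem_filter.1 h1).2 _ (Finset.mem_insert_self _ _)
    have h4 := (Finset.mem_filter.1 h2).2 _ (Finset.mem_insert_self _ _)
    rw [h3] at h4
    exact absurd h4 (by simp)

open Classical in
private theorem mainQ (hIND : T_IND) (n : ℕ) (C : Finset (Fin n → Bool)) (D e M : ℕ)
    (Ex Q : Finset (Fin n × Bool) → Prop)
    (Res : Finset (Fin n × Bool) → Finset (Fin n) → Prop) (hR : Rs C D e Ex Res) (hDn : D ≤ n)
    (hQ : ∀ L, Q L → 2 ^ n ≤ M * (nC C L * 2 ^ L.card))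
    (T : Pool.Agent.H47.SQ.Tree n) : ∀ L W, Con L → Res L W → L.card ≤ D →
    (univ.filter fun ω => FindQ Ex Q ω T L).card * 2 ^ (D - L.card) * 2 ^ (dm L ∩ W).card ≤
      M * (nC C L * 2 ^ e) * Fintype.card (Finset (Fin n × Bool) → Bool) := by
  induction T with
  | leaf =>
    intro L W hL hRes hLD
    by_cases hD : Q L
    · have h1 := hQ L hD
      have h2 : (univ.filter fun ω : Finset (Fin n × Bool) → Bool =>
          FindQ Ex Q ω Pool.Agent.H47.SQ.Tree.leaf L).card ≤ Fintype.card (Finset (Fin n × Bool) → Bool) := by
        rw [← Finset.card_univ]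
        exact Finset.card_le_card (Finset.filter_subset _ _)
      have h3 : (dm L ∩ W).card ≤ e :=
        (Finset.card_le_card Finset.inter_subset_right).trans (hR.card L W hRes)
      have h4 : 2 ^ (D - L.card) ≤ M * nC C L := by
        have h6 : 2 ^ (n - L.card) * 2 ^ L.card ≤ (M * nC C L) * 2 ^ L.card := by
          rw [← pow_add, Nat.sub_add_cancel (hLD.trans hDn), mul_assoc]
          exact h1
        exact (Nat.pow_le_pow_right (by norm_num) (by omega)).trans
          (Nat.le_of_mul_le_mul_right h6 (by positivity))
      have h5 : 2 ^ (dm L ∩ W).card ≤ 2 ^ e := Nat.pow_le_pow_right (by norm_num) h3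
      calc _ ≤ Fintype.card (Finset (Fin n × Bool) → Bool) * (M * nC C L) * 2 ^ e :=
            Nat.mul_le_mul (Nat.mul_le_mul h2 h4) h5
        _ = _ := by ring
    · have h1 : (univ.filter fun ω : Finset (Fin n × Bool) → Bool =>
          FindQ Ex Q ω Pool.Agent.H47.SQ.Tree.leaf L) = ∅ := by
        rw [Finset.filter_eq_empty_iff]
        intro ω _ h
        exact hD h
      rw [h1, Finset.card_empty]
      simp
  | node v f ih =>
    intro L W hL hRes hLD
    by_cases hv : v ∈ dm L
    · -- the variable has a value
      obtain ⟨⟨u, b⟩, hub, hu⟩ := Finset.mem_image.1 hv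
      have hu' : u = v := hu
      subst hu'
      have h1 : (univ.filter fun ω => FindQ Ex Q ω (Pool.Agent.H47.SQ.Tree.node u f) L).card ≤
          (univ.filter fun ω => FindQ Ex Q ω (f b b) L).card := by
        refine Finset.card_le_card fun ω hω => ?_
        rw [Finset.mem_filter] at hω ⊢
        refine ⟨Finset.mem_univ _, ?_⟩
        rcases hω.2 with ⟨b', hb', hF⟩ | ⟨hn, _⟩
        · have hbb : b' = b := by
            by_contra hne
            apply hL u b' hb'
            have : (!b') = b := by cases b <;> cases b' <;> simp_all
            rw [this]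
            exact hub
          rw [hbb] at hF
          exact hF
        · exact absurd hub (hn b)
      have h2 := ih b b L W hL hRes hLD
      exact le_trans (Nat.mul_le_mul_right _ (Nat.mul_le_mul_right _ h1)) h2
    · rcases Nat.lt_or_ge L.card D with hlt | hge
      swap
      · -- depth `D`
        have hD0 : D - L.card = 0 := by omega
        rw [hD0, pow_zero, mul_one]
        by_cases hem : (univ.filter fun ω => FindQ Ex Q ω (Pool.Agent.H47.SQ.Tree.node v f) L) = ∅
        · rw [hem, Finset.card_empty, Nat.zero_mul]
          exact Nat.zero_le _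
        · obtain ⟨ω, hω⟩ := Finset.nonempty_iff_ne_empty.2 hem
          obtain ⟨hM, τ, h1, h2⟩ := findQ_sat C M Ex Q hQ ω _ L (Finset.mem_filter.1 hω).2
          have h3' : 1 ≤ nC C L := by
            unfold nC
            exact Finset.card_pos.2 ⟨τ, Finset.mem_filter.2 ⟨h1, h2⟩⟩
          have h3 : 1 ≤ M * nC C L := Nat.mul_pos hM h3'
          have h4 : (univ.filter fun ω : Finset (Fin n × Bool) → Bool =>
              FindQ Ex Q ω (Pool.Agent.H47.SQ.Tree.node v f) L).card ≤
              Fintype.card (Finset (Fin n × Bool) → Bool) := by
            rw [← Finset.card_univ]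
            exact Finset.card_le_card (Finset.filter_subset _ _)
          have h5 : (dm L ∩ W).card ≤ e :=
            (Finset.card_le_card Finset.inter_subset_right).trans (hR.card L W hRes)
          have h6 : 2 ^ (dm L ∩ W).card ≤ 2 ^ e := Nat.pow_le_pow_right (by norm_num) h5
          calc _ ≤ Fintype.card (Finset (Fin n × Bool) → Bool) * 2 ^ e := Nat.mul_le_mul h4 h6
            _ = 1 * 2 ^ e * Fintype.card (Finset (Fin n × Bool) → Bool) := by ring
            _ ≤ (M * nC C L) * 2 ^ e * Fintype.card (Finset (Fin n × Bool) → Bool) :=
                Nat.mul_le_mul_right _ (Nat.mul_le_mul_right _ h3)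
            _ = _ := by ring
      · -- the main case
        have hnb : ∀ b, (v, b) ∉ L := fun b hb => hv (Finset.mem_image.2 ⟨(v, b), hb, rfl⟩)
        have hcard : ∀ b, (insert (v, b) L).card = L.card + 1 := fun b =>
          Finset.card_insert_of_notMem (hnb b)
        -- the subtrees
        have hsub : ∀ a b, (univ.filter fun ω => FindQ Ex Q ω (f a b) (insert (v, b) L)).card *
            2 ^ (D - L.card - 1) * 2 ^ ((dm L ∩ W).card + if v ∈ W then 1 else 0) ≤
            M * (nC C (insert (v, b) L) * 2 ^ e) *
              Fintype.card (Finset (Fin n × Bool) → Bool) := by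
          intro a b
          by_cases hem : (univ.filter fun ω => FindQ Ex Q ω (f a b) (insert (v, b) L)) = ∅
          · rw [hem, Finset.card_empty, Nat.zero_mul, Nat.zero_mul]
            exact Nat.zero_le _
          · obtain ⟨ω, hω⟩ := Finset.nonempty_iff_ne_empty.2 hem
            obtain ⟨-, τ, h1, h2⟩ := findQ_sat C M Ex Q hQ ω _ _ (Finset.mem_filter.1 hω).2
            obtain ⟨W', hW, hRes'⟩ := hR.step L W v b τ hRes hlt hv h1 h2
            have h3 := ih a b (insert (v, b) L) W' (con_insert' hL (hnb _)) hRes'
              (by rw [hcard]; omega)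
            rw [hcard, ← Nat.sub_sub] at h3
            refine le_trans (Nat.mul_le_mul_left _ (Nat.pow_le_pow_right (by norm_num) ?_)) h3
            rw [dm_ins]
            by_cases hvW : v ∈ W
            · rw [if_pos hvW]
              have h4 : v ∉ dm L ∩ W := fun h => hv (Finset.mem_inter.1 h).1
              rw [← Finset.card_insert_of_notMem h4]
              refine Finset.card_le_card fun u hu => ?_
              rw [Finset.mem_inter, Finset.mem_insert]
              rcases Finset.mem_insert.1 hu with rfl | hu
              · exact ⟨Or.inl rfl, hW hvW⟩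
              · exact ⟨Or.inr (Finset.mem_inter.1 hu).1, hW (Finset.mem_inter.1 hu).2⟩
            · rw [if_neg hvW, Nat.add_zero]
              refine Finset.card_le_card fun u hu => ?_
              rw [Finset.mem_inter, Finset.mem_insert]
              exact ⟨Or.inr (Finset.mem_inter.1 hu).1, hW (Finset.mem_inter.1 hu).2⟩
        have hhalf : ∀ a b, 2 * (univ.filter fun ω : Finset (Fin n × Bool) → Bool =>
            ω L = a ∧ FindQ Ex Q ω (f a b) (insert (v, b) L)).card =
            (univ.filter fun ω => FindQ Ex Q ω (f a b) (insert (v, b) L)).card := by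
          intro a b
          refine hIND (Finset (Fin n × Bool)) L a
            (fun ω => FindQ Ex Q ω (f a b) (insert (v, b) L)) (fun ω ω' hω => ?_)
          refine findQ_congr Ex Q ω ω' _ _ fun L' hL' => hω L' fun heq => ?_
          rw [heq] at hL'
          exact hnb b (hL' (Finset.mem_insert_self _ _))
        set N := Fintype.card (Finset (Fin n × Bool) → Bool) with hN
        have hpow : ∀ x y : ℕ, x * 2 ^ (D - L.card) * y = (2 * x) * 2 ^ (D - L.card - 1) * y := by
          intro x y
          have h1 : D - L.card = (D - L.card - 1) + 1 := by omega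
          conv_lhs => rw [h1, pow_succ]
          ring
        by_cases hvW : v ∈ W
        · simp only [if_pos hvW] at hsub
          have hle : (univ.filter fun ω => FindQ Ex Q ω (Pool.Agent.H47.SQ.Tree.node v f) L).card ≤
              ((univ.filter fun ω : Finset (Fin n × Bool) → Bool =>
                ω L = true ∧ FindQ Ex Q ω (f true true) (insert (v, true) L)).card +
              (univ.filter fun ω : Finset (Fin n × Bool) → Bool =>
                ω L = true ∧ FindQ Ex Q ω (f true false) (insert (v, false) L)).card) +
              ((univ.filter fun ω : Finset (Fin n × Bool) → Bool =>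
                ω L = false ∧ FindQ Ex Q ω (f false true) (insert (v, true) L)).card +
              (univ.filter fun ω : Finset (Fin n × Bool) → Bool =>
                ω L = false ∧ FindQ Ex Q ω (f false false) (insert (v, false) L)).card) := by
            refine le_trans (Finset.card_le_card (t := ((univ.filter fun
                ω : Finset (Fin n × Bool) → Bool =>
                ω L = true ∧ FindQ Ex Q ω (f true true) (insert (v, true) L)) ∪
              (univ.filter fun ω : Finset (Fin n × Bool) → Bool =>
                ω L = true ∧ FindQ Ex Q ω (f true false) (insert (v, false) L))) ∪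
              ((univ.filter fun ω : Finset (Fin n × Bool) → Bool =>
                ω L = false ∧ FindQ Ex Q ω (f false true) (insert (v, true) L)) ∪
              (univ.filter fun ω : Finset (Fin n × Bool) → Bool =>
                ω L = false ∧ FindQ Ex Q ω (f false false) (insert (v, false) L))))
              fun ω hω => ?_) (le_trans (Finset.card_union_le _ _)
                (Nat.add_le_add (Finset.card_union_le _ _) (Finset.card_union_le _ _)))
            simp only [Finset.mem_union, Finset.mem_filter, Finset.mem_univ, true_and]
            rcases (Finset.mem_filter.1 hω).2 with ⟨b, hb, _⟩ | ⟨_, b, _, hF⟩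
            · exact absurd hb (hnb b)
            · rcases ha : ω L with _ | _
              · rw [ha] at hF
                right
                cases b
                · exact Or.inr ⟨rfl, hF⟩
                · exact Or.inl ⟨rfl, hF⟩
              · rw [ha] at hF
                left
                cases b
                · exact Or.inr ⟨rfl, hF⟩
                · exact Or.inl ⟨rfl, hF⟩
          have h1 := hsub true true
          have h2 := hsub true false
          have h3 := hsub false true
          have h4 := hsub false false
          rw [← hhalf] at h1 h2 h3 h4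
          have h5 := nC_split C L v
          refine Nat.le_of_mul_le_mul_left ?_ (show 0 < 2 by norm_num)
          set c := (univ.filter fun ω => FindQ Ex Q ω (Pool.Agent.H47.SQ.Tree.node v f) L).card
          set c1 := (univ.filter fun ω : Finset (Fin n × Bool) → Bool =>
                ω L = true ∧ FindQ Ex Q ω (f true true) (insert (v, true) L)).card
          set c2 := (univ.filter fun ω : Finset (Fin n × Bool) → Bool =>
                ω L = true ∧ FindQ Ex Q ω (f true false) (insert (v, false) L)).card
          set c3 := (univ.filter fun ω : Finset (Fin n × Bool) → Bool =>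
                ω L = false ∧ FindQ Ex Q ω (f false true) (insert (v, true) L)).card
          set c4 := (univ.filter fun ω : Finset (Fin n × Bool) → Bool =>
                ω L = false ∧ FindQ Ex Q ω (f false false) (insert (v, false) L)).card
          calc 2 * (c * 2 ^ (D - L.card) * 2 ^ (dm L ∩ W).card)
              = (2 * c) * 2 ^ (D - L.card - 1) * 2 ^ ((dm L ∩ W).card + 1) := by
                rw [hpow, pow_succ]; ring
            _ ≤ (2 * ((c1 + c2) + (c3 + c4))) * 2 ^ (D - L.card - 1) *
                2 ^ ((dm L ∩ W).card + 1) :=
                Nat.mul_le_mul_right _ (Nat.mul_le_mul_right _ (Nat.mul_le_mul_left _ hle))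
            _ = (2 * c1 * 2 ^ (D - L.card - 1) * 2 ^ ((dm L ∩ W).card + 1) +
                  2 * c2 * 2 ^ (D - L.card - 1) * 2 ^ ((dm L ∩ W).card + 1)) +
                (2 * c3 * 2 ^ (D - L.card - 1) * 2 ^ ((dm L ∩ W).card + 1) +
                  2 * c4 * 2 ^ (D - L.card - 1) * 2 ^ ((dm L ∩ W).card + 1)) := by ring
            _ ≤ (M * (nC C (insert (v, true) L) * 2 ^ e) * N +
                  M * (nC C (insert (v, false) L) * 2 ^ e) * N) +
                (M * (nC C (insert (v, true) L) * 2 ^ e) * N +
                  M * (nC C (insert (v, false) L) * 2 ^ e) * N) :=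
                Nat.add_le_add (Nat.add_le_add h1 h2) (Nat.add_le_add h3 h4)
            _ = 2 * (M * (nC C L * 2 ^ e) * N) := by rw [h5]; ring
        · simp only [if_neg hvW, Nat.add_zero] at hsub
          have hle : (univ.filter fun ω => FindQ Ex Q ω (Pool.Agent.H47.SQ.Tree.node v f) L).card ≤
              (univ.filter fun ω : Finset (Fin n × Bool) → Bool =>
                ω L = true ∧ FindQ Ex Q ω (f true true) (insert (v, true) L)).card +
              (univ.filter fun ω : Finset (Fin n × Bool) → Bool =>
                ω L = false ∧ FindQ Ex Q ω (f false false) (insert (v, false) L)).card := by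
            refine le_trans (Finset.card_le_card (t := (univ.filter fun
                ω : Finset (Fin n × Bool) → Bool =>
                ω L = true ∧ FindQ Ex Q ω (f true true) (insert (v, true) L)) ∪
              (univ.filter fun ω : Finset (Fin n × Bool) → Bool =>
                ω L = false ∧ FindQ Ex Q ω (f false false) (insert (v, false) L)))
              fun ω hω => ?_) (Finset.card_union_le _ _)
            simp only [Finset.mem_union, Finset.mem_filter, Finset.mem_univ, true_and]
            rcases (Finset.mem_filter.1 hω).2 with ⟨b, hb, _⟩ | ⟨_, b, hc, hF⟩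
            · exact absurd hb (hnb b)
            · have hωb : ω L = b := by
                rcases hc with hc | hc
                · exact hc
                · obtain ⟨-, τ, h1, h2⟩ := findQ_sat C M Ex Q hQ ω _ _ hF
                  exact absurd hc (hR.free L W v b τ hRes hlt hv hvW h1 h2)
              rw [hωb] at hF ⊢
              cases b
              · exact Or.inr ⟨rfl, hF⟩
              · exact Or.inl ⟨rfl, hF⟩
          have h1 := hsub true true
          have h4 := hsub false false
          rw [← hhalf] at h1 h4
          have h5 := nC_split C L v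
          set c := (univ.filter fun ω => FindQ Ex Q ω (Pool.Agent.H47.SQ.Tree.node v f) L).card
          set c1 := (univ.filter fun ω : Finset (Fin n × Bool) → Bool =>
                ω L = true ∧ FindQ Ex Q ω (f true true) (insert (v, true) L)).card
          set c4 := (univ.filter fun ω : Finset (Fin n × Bool) → Bool =>
                ω L = false ∧ FindQ Ex Q ω (f false false) (insert (v, false) L)).card
          calc c * 2 ^ (D - L.card) * 2 ^ (dm L ∩ W).card
              = (2 * c) * 2 ^ (D - L.card - 1) * 2 ^ (dm L ∩ W).card := hpow _ _
            _ ≤ (2 * (c1 + c4)) * 2 ^ (D - L.card - 1) * 2 ^ (dm L ∩ W).card :=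
                Nat.mul_le_mul_right _ (Nat.mul_le_mul_right _ (Nat.mul_le_mul_left _ hle))
            _ = 2 * c1 * 2 ^ (D - L.card - 1) * 2 ^ (dm L ∩ W).card +
                  2 * c4 * 2 ^ (D - L.card - 1) * 2 ^ (dm L ∩ W).card := by ring
            _ ≤ M * (nC C (insert (v, true) L) * 2 ^ e) * N +
                  M * (nC C (insert (v, false) L) * 2 ^ e) * N := Nat.add_le_add h1 h4
            _ = M * (nC C L * 2 ^ e) * N := by rw [h5]; ring

open Classical in
theorem pf_DRQ (hIND : T_IND) : T_DRQ := by
  intro n C D e Ex Res hR hDn M Q hQ T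
  obtain ⟨W, hW⟩ := hR.init
  have h := mainQ hIND n C D e M Ex Q Res hR hDn hQ T ∅ W (fun v b hb => by simp at hb) hW
    (by simp)
  have hdm : dm (∅ : Finset (Fin n × Bool)) = ∅ := by
    unfold dm
    simp
  rw [Finset.card_empty, Nat.sub_zero, hdm, Finset.empty_inter, Finset.card_empty, pow_zero,
    mul_one] at h
  have hn : nC C ∅ = C.card := by
    unfold nC
    congr 1
    ext τ
    simp only [Finset.mem_filter]
    exact ⟨fun h => h.1, fun h => ⟨h, fun l hl => by simp at hl⟩⟩
  rw [hn] at h
  exact h

end Pool.Agent.H67.SQR
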